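import Pool.Agent.H6.FI.TargetsB

/-! Row AKR of fi_modules: the kernel is the radical. -/

set_option autoImplicit false

open FI AMc AMt

namespace Pool.Agent.H73.FI

/-- finite products of solvable groups -/
theorem pi_solv {n : ℕ} (K : Fin n → Type) [∀ i, Group (K i)]
    (h : ∀ i, Group.IsSolvable (K i)) : Group.IsSolvable (∀ i, K i) := by
  have h1 : ∀ i, ∃ d, derivedSeries (K i) d = ⊥ := fun i => (h i).solvable
  choose d hd using h1
  refine ⟨⟨∑ i, d i, ?_⟩⟩
  rw [eq_bot_iff]
  intro x hx
  rw [Subgroup.mem_bot]
  funext i
  have h2 := map_derivedSeries_le_derivedSeries (Pi.evalMonoidHom K i) (∑ i, d i)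
  have h3 : x i ∈ derivedSeries (K i) (∑ i, d i) := h2 ⟨x, hx, rfl⟩
  have h4 : derivedSeries (K i) (∑ i, d i) ≤ derivedSeries (K i) (d i) :=
    derivedSeries_antitone _ (Finset.single_le_sum (fun _ _ => Nat.zero_le _) (Finset.mem_univ i))
  have h5 := h4 h3
  rw [hd, Subgroup.mem_bot] at h5
  exact h5

theorem pf_AKR (h1 : T_S5R) (h2 : T_S5V) (h3 : T_SOL) : T_AKR := by
  classical
  intro X _ _ hX
  obtain ⟨n, f, hf⟩ := hX
  let fi : Fin n → (X →* Equiv.Perm (Fin 5)) := fun i =>
    (Pi.evalMonoidHom (fun _ : Fin n => Equiv.Perm (Fin 5)) i).comp f
  have hfi : ∀ i x, fi i x = f x i := fun _ _ => rfl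
  let P : Fin n → Prop := fun i => A5 ≤ (fi i).range
  let f' : X →* (Fin n → Equiv.Perm (Fin 5)) :=
    { toFun := fun x i => if P i then f x i else 1
      map_one' := by
        funext i
        by_cases h : P i <;> simp [h]
      map_mul' := by
        intro x y
        funext i
        by_cases h : P i <;> simp [h] }
  have hf' : ∀ x i, f' x i = if P i then f x i else 1 := fun _ _ => rfl
  have hpos : ∀ x i, P i → f' x i = f x i := fun x i h => by rw [hf', if_pos h]
  have hneg : ∀ x i, ¬ P i → f' x i = 1 := fun x i h => by rw [hf', if_neg h]
  refine ⟨n, f', ?_, ?_⟩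
  · apply le_antisymm
    · refine (h3 X).2.1 _ inferInstance ?_
      let S : Fin n → Subgroup (Equiv.Perm (Fin 5)) := fun i => if P i then ⊥ else (fi i).range
      have hS : ∀ i, Group.IsSolvable (S i) := by
        intro i
        by_cases h : P i
        · have e : S i = ⊥ := if_pos h
          rw [e]
          infer_instance
        · have e : S i = (fi i).range := if_neg h
          rw [e, h2]
          exact h
      have hmem : ∀ (x : f'.ker) (i : Fin n), f x i ∈ S i := by
        intro x i
        by_cases h : P i
        · have e : S i = ⊥ := if_pos h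
          rw [e, Subgroup.mem_bot, ← hpos x i h]
          exact congrFun x.2 i
        · have e : S i = (fi i).range := if_neg h
          rw [e]
          exact ⟨x, rfl⟩
      let g : f'.ker →* (∀ i, S i) :=
        { toFun := fun x i => ⟨f x i, hmem x i⟩
          map_one' := by
            funext i
            apply Subtype.ext
            simp
          map_mul' := by
            intro x y
            funext i
            apply Subtype.ext
            simp }
      have hsol : Group.IsSolvable (∀ i, S i) := pi_solv (fun i => S i) hS
      have hgk : Group.IsSolvable g.ker := by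
        let ι : g.ker →* f.ker :=
          (f'.ker.subtype.comp g.ker.subtype).codRestrict f.ker (fun x => by
            rw [MonoidHom.mem_ker]
            funext i
            have h4 := congrFun (show g x = 1 from x.2) i
            exact congrArg Subtype.val h4)
        exact Group.isSolvable_of_isSolvable_injective (f := ι) (fun x y h => by
          apply Subtype.ext
          apply Subtype.ext
          exact congrArg (fun z : f.ker => (z : X)) h)
      exact Group.isSolvable_of_ker_le_range g.ker.subtype g (by rw [Subgroup.range_subtype])
    · intro x hx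
      rw [MonoidHom.mem_ker]
      funext i
      by_cases h : P i
      · rw [hpos x i h]
        have hn : (sol X).Normal := normal_sSup _ fun N hN => hN.1
        by_contra hne
        have h5 : (sol X).map (fi i) ≠ ⊥ := by
          intro h6
          apply hne
          have h7 : fi i x ∈ (sol X).map (fi i) := ⟨x, hx, rfl⟩
          rw [h6, Subgroup.mem_bot] at h7
          exact h7
        have h6 : A5 ≤ (sol X).map (fi i) := by
          refine h1 (fi i).range _ h ?_ ?_ h5
          · rintro _ ⟨y, _, rfl⟩
            exact ⟨y, rfl⟩
          · rintro _ ⟨g, rfl⟩ _ ⟨y, hy, rfl⟩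
            exact ⟨g * y * g⁻¹, hn.conj_mem y hy g, by simp⟩
        have h7 : Group.IsSolvable ((sol X).map (fi i)) := by
          have h8 := (h3 X).1
          exact Group.isSolvable_of_surjective (f := (fi i).subgroupMap (sol X))
            ((fi i).subgroupMap_surjective (sol X))
        exact (h2 _).1 h7 h6
      · rw [hneg x i h]
        rfl
  · intro i
    by_cases h : P i
    · right
      intro σ hσ
      obtain ⟨x, hx⟩ := h hσ
      exact ⟨x, by rw [hpos x i h]; exact hx⟩
    · left
      intro x
      exact hneg x i h

end Pool.Agent.H73.FI
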