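import Pool.Agent.H6.FI.TargetsB

/-! Row AST of fi_modules: structure of the groups with trivial radical. -/

set_option autoImplicit false

open FI AMc AMt

namespace Pool.Agent.H73.FI

theorem pf_AST (h1 : T_AKR) (h2 : T_S5R) : T_AST := by
  classical
  intro X _ _ _ hX hsol
  obtain ⟨n, f, hfk, hf⟩ := h1 X hX
  rw [hsol] at hfk
  let k : Finset (Fin n) → Subgroup X := fun J =>
    { carrier := {x | ∀ i ∈ J, f x i = 1}
      one_mem' := fun i _ => by simp
      mul_mem' := by
        intro x y hx hy i hi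
        rw [map_mul, Pi.mul_apply, hx i hi, hy i hi, one_mul]
      inv_mem' := by
        intro x hx i hi
        rw [map_inv, Pi.inv_apply, hx i hi, inv_one] }
  have hk : ∀ J x, x ∈ k J ↔ ∀ i ∈ J, f x i = 1 := fun _ _ => Iff.rfl
  have hkn : ∀ J, (k J).Normal := by
    intro J
    refine ⟨fun x hx g i hi => ?_⟩
    rw [map_mul, map_mul, map_inv, Pi.mul_apply, Pi.mul_apply, Pi.inv_apply, hx i hi]
    simp
  have huniv : k Finset.univ = ⊥ := by
    rw [eq_bot_iff, ← hfk]
    intro x hx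
    rw [MonoidHom.mem_ker]
    funext i
    exact hx i (Finset.mem_univ i)
  obtain ⟨J, hJ, hmin⟩ : ∃ J, k J = ⊥ ∧ ∀ J', J' ⊂ J → k J' ≠ ⊥ := by
    have hfin : {J | k J = ⊥}.Finite := Set.toFinite _
    obtain ⟨J, hJ⟩ := hfin.exists_minimal ⟨Finset.univ, huniv⟩
    exact ⟨J, hJ.1, fun J' h h' => h.2 (hJ.2 h' h.1)⟩
  have hJne : J.Nonempty := by
    rw [Finset.nonempty_iff_ne_empty]
    rintro rfl
    have h3 : k ∅ = ⊤ := by
      rw [eq_top_iff]
      intro x _ i hi
      simp at hi
    rw [h3] at hJ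
    exact top_ne_bot hJ
  obtain ⟨i, hi⟩ := hJne
  set J' := J.erase i with hJ'
  have hK : k J' ≠ ⊥ := hmin J' (Finset.erase_ssubset hi)
  let γ : X →* Equiv.Perm (Fin 5) :=
    (Pi.evalMonoidHom (fun _ : Fin n => Equiv.Perm (Fin 5)) i).comp f
  have hγ : ∀ x, γ x = f x i := fun _ => rfl
  have hKγ : ∀ x ∈ k J', γ x = 1 → x = 1 := by
    intro x hx hx1
    have h3 : x ∈ k J := by
      intro j hj
      by_cases hji : j = i
      · rw [hji]
        exact hx1
      · exact hx j (Finset.mem_erase.2 ⟨hji, hj⟩)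
    rw [hJ, Subgroup.mem_bot] at h3
    exact h3
  obtain ⟨x0, hx0, hx0n⟩ := (Subgroup.ne_bot_iff_exists_ne_one (H := k J')).1 hK |>.elim
    (fun a ha => (⟨(a : X), a.2, fun h => ha (Subtype.ext h)⟩ : ∃ x, x ∈ k J' ∧ x ≠ 1))
  have hγx0 : γ x0 ≠ 1 := fun h => hx0n (hKγ x0 hx0 h)
  have hran : A5 ≤ γ.range := by
    rcases hf i with h | h
    · exact absurd (h x0) hγx0
    · intro σ hσ
      obtain ⟨x, hx⟩ := h σ hσ
      exact ⟨x, hx⟩
  have hA5K : A5 ≤ (k J').map γ := by
    refine h2 γ.range _ hran ?_ ?_ ?_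
    · rintro _ ⟨y, _, rfl⟩
      exact ⟨y, rfl⟩
    · rintro _ ⟨g, rfl⟩ _ ⟨y, hy, rfl⟩
      exact ⟨g * y * g⁻¹, (hkn J').conj_mem y hy g, by simp⟩
    · intro h
      apply hγx0
      have h3 : γ x0 ∈ (k J').map γ := ⟨x0, hx0, rfl⟩
      rw [h, Subgroup.mem_bot] at h3
      exact h3
  set L : Subgroup X := k J' ⊓ A5.comap γ with hL
  have hLn : L.Normal := by
    have h3 := hkn J'
    have h4 : (A5.comap γ).Normal := inferInstance
    rw [hL]
    infer_instance
  refine ⟨L, hLn, γ, ⟨hLn, ?_, ?_⟩, ?_⟩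
  · rw [eq_bot_iff]
    rintro x ⟨⟨hx, _⟩, hx1⟩
    exact hKγ x hx hx1
  · apply le_antisymm
    · rintro _ ⟨x, ⟨_, hx⟩, rfl⟩
      exact hx
    · intro σ hσ
      obtain ⟨x, hx, rfl⟩ := hA5K hσ
      exact ⟨x, ⟨hx, hσ⟩, rfl⟩
  · let F : X →* (Fin n → Equiv.Perm (Fin 5)) :=
      { toFun := fun x j => if j ∈ J' then f x j else 1
        map_one' := by
          funext j
          by_cases h : j ∈ J' <;> simp [h]
        map_mul' := by
          intro x y
          funext j
          by_cases h : j ∈ J' <;> simp [h] }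
    have hF : ∀ x j, F x j = if j ∈ J' then f x j else 1 := fun _ _ => rfl
    have hFk : ∀ x, F x = 1 ↔ x ∈ k J' := by
      intro x
      constructor
      · intro h j hj
        have h3 := congrFun h j
        rw [hF, if_pos hj] at h3
        exact h3
      · intro h
        funext j
        rw [hF]
        split_ifs with hj
        · exact h j hj
        · rfl
    have hLF : L ≤ F.ker := fun x hx => (hFk x).2 hx.1
    refine ⟨n, QuotientGroup.lift L F hLF, ?_⟩
    refine Group.isSolvable_of_comm ?_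
    rintro ⟨a, ha⟩ ⟨b, hb⟩
    apply Subtype.ext
    change a * b = b * a
    induction a using QuotientGroup.induction_on with
    | H x =>
      induction b using QuotientGroup.induction_on with
      | H y =>
        have hx : x ∈ k J' := (hFk x).1 ha
        have hy : y ∈ k J' := (hFk y).1 hb
        change ((x * y : X) : X ⧸ L) = ((y * x : X) : X ⧸ L)
        rw [QuotientGroup.eq]
        refine ⟨(k J').mul_mem ((k J').inv_mem ((k J').mul_mem hx hy)) ((k J').mul_mem hy hx), ?_⟩
        change γ ((x * y)⁻¹ * (y * x)) ∈ alternatingGroup (Fin 5)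
        rw [Equiv.Perm.mem_alternatingGroup, map_mul, map_inv, map_mul, map_mul]
        rw [map_mul, map_inv, map_mul, map_mul, mul_comm (Equiv.Perm.sign (γ x)), inv_mul_cancel]

end Pool.Agent.H73.FI
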