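import Pool.Agent.H6.FI.TargetsA

/-! Row HMC of fi_modules: homomorphisms to cyclic groups; the commutator pairing. -/

set_option autoImplicit false

open FI

namespace Pool.Agent.H73.FI

/-- a finite cyclic group is a group of roots of unity -/
theorem cyc_emb (U : Type) [CommGroup U] [Finite U] (hU : IsCyclic U) :
    ∃ f : U →* ℂˣ, Function.Injective f := by
  have hpos : Nat.card U ≠ 0 := Nat.card_pos.ne'
  have : NeZero (Nat.card U) := ⟨hpos⟩
  have hc : Nat.card U = Nat.card (rootsOfUnity (Nat.card U) ℂ) := by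
    rw [Complex.card_rootsOfUnity]
  have e : U ≃* rootsOfUnity (Nat.card U) ℂ := mulEquivOfCyclicCardEq hc
  exact ⟨(rootsOfUnity (Nat.card U) ℂ).subtype.comp e.toMonoidHom,
    Subtype.val_injective.comp e.injective⟩

theorem pf_HMC : T_HMC := by
  intro A U _ _ _ _ hU
  obtain ⟨f, hf⟩ := cyc_emb U hU
  have h1 : Nat.card (A →* ℂˣ) = Nat.card A := by
    exact CommGroup.card_monoidHom_of_hasEnoughRootsOfUnity A ℂ
  have hfin : Finite (A →* ℂˣ) := by
    apply Nat.finite_of_card_ne_zero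
    rw [h1]
    exact Nat.card_pos.ne'
  rw [← h1]
  exact Nat.card_le_card_of_injective (fun g : A →* U => f.comp g) (fun a b h => by
    ext x
    exact hf (DFunLike.congr_fun h x))

section

variable {R : Type} [Group R]

theorem comm_mul_right {e d d' : R} (h : e * d' * e⁻¹ * d'⁻¹ * d = d * (e * d' * e⁻¹ * d'⁻¹)) :
    e * (d * d') * e⁻¹ * (d * d')⁻¹ = (e * d * e⁻¹ * d⁻¹) * (e * d' * e⁻¹ * d'⁻¹) := by
  have h1 : e * (d * d') * e⁻¹ * (d * d')⁻¹ =
      (e * d * e⁻¹) * (e * d' * e⁻¹ * d'⁻¹) * d⁻¹ := by group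
  have h2 : (e * d' * e⁻¹ * d'⁻¹) * d⁻¹ = d⁻¹ * (e * d' * e⁻¹ * d'⁻¹) := by
    rw [eq_inv_mul_iff_mul_eq, ← mul_assoc, ← h]
    group
  rw [h1, mul_assoc, h2]
  group

theorem comm_mul_left {e e' d : R} (h : e' * d * e'⁻¹ * d⁻¹ * e = e * (e' * d * e'⁻¹ * d⁻¹)) :
    (e * e') * d * (e * e')⁻¹ * d⁻¹ = (e' * d * e'⁻¹ * d⁻¹) * (e * d * e⁻¹ * d⁻¹) := by
  have h1 : (e * e') * d * (e * e')⁻¹ * d⁻¹ =
      (e * (e' * d * e'⁻¹ * d⁻¹)) * (d * e⁻¹ * d⁻¹) := by group
  rw [h1, ← h]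
  group

theorem comm_inv_left {e d : R} (h : e * d * e⁻¹ * d⁻¹ * e = e * (e * d * e⁻¹ * d⁻¹)) :
    e⁻¹ * d * e⁻¹⁻¹ * d⁻¹ = (e * d * e⁻¹ * d⁻¹)⁻¹ := by
  have h1 : e⁻¹ * d * e⁻¹⁻¹ * d⁻¹ = e⁻¹ * (e * d * e⁻¹ * d⁻¹)⁻¹ * e := by group
  have h2 : (e * d * e⁻¹ * d⁻¹)⁻¹ * e = e * (e * d * e⁻¹ * d⁻¹)⁻¹ := by
    rw [inv_mul_eq_iff_eq_mul, ← mul_assoc, h]
    group
  rw [h1, mul_assoc, h2]
  group

/-- the commutator pairing -/
theorem pair (h1 : T_HMC) [Finite R] (U E D T : Subgroup R) (hU : IsCyclic U) (_hTD : T ≤ D)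
    (hab : ∀ a ∈ D, ∀ b ∈ D, a * b * a⁻¹ * b⁻¹ ∈ T) (hUE : ∀ u ∈ U, ∀ e ∈ E, u * e = e * u)
    (hUD : ∀ u ∈ U, ∀ d ∈ D, u * d = d * u) (hcom : ∀ e ∈ E, ∀ d ∈ D, e * d * e⁻¹ * d⁻¹ ∈ U)
    (hT : ∀ e ∈ E, ∀ t ∈ T, e * t = t * e) :
    (Subgroup.centralizer (D : Set R)).relIndex E ≤ T.relIndex D := by
  have hn : (T.subgroupOf D).Normal := by
    constructor
    intro t ht d
    rw [Subgroup.mem_subgroupOf] at ht ⊢
    have h2 := hab d d.2 t t.2
    have h3 := T.mul_mem h2 ht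
    simpa using h3
  let _ : CommGroup U := IsCyclic.commGroup
  let Q := D ⧸ T.subgroupOf D
  let _ : CommGroup Q :=
    { (inferInstance : Group Q) with
      mul_comm := by
        intro a b
        induction a using QuotientGroup.induction_on with
        | H a =>
          induction b using QuotientGroup.induction_on with
          | H b =>
            change ((a * b : D) : Q) = ((b * a : D) : Q)
            rw [QuotientGroup.eq, Subgroup.mem_subgroupOf]
            have h2 := hab (b : R)⁻¹ (D.inv_mem b.2) (a : R)⁻¹ (D.inv_mem a.2)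
            have e : ((((a * b : D)⁻¹ * (b * a) : D)) : R) =
                (b : R)⁻¹ * (a : R)⁻¹ * (b : R)⁻¹⁻¹ * (a : R)⁻¹⁻¹ := by
              push_cast
              group
            rw [e]
            exact h2 }
  have hfinQ : Finite Q := inferInstance
  let ψ : E → (D →* U) := fun e =>
    { toFun := fun d => ⟨e * d * (e : R)⁻¹ * (d : R)⁻¹, hcom e e.2 d d.2⟩
      map_one' := by
        apply Subtype.ext
        simp
      map_mul' := by
        intro d d'
        apply Subtype.ext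
        exact comm_mul_right (hUD _ (hcom e e.2 d' d'.2) d d.2) }
  have hψ : ∀ (e : E) (d : D), ((ψ e d : U) : R) = e * d * (e : R)⁻¹ * (d : R)⁻¹ :=
    fun _ _ => rfl
  have hker : ∀ e : E, T.subgroupOf D ≤ (ψ e).ker := by
    intro e t ht
    rw [MonoidHom.mem_ker]
    apply Subtype.ext
    rw [hψ, hT e e.2 t ht]
    simp
  let φ : E →* (Q →* U) :=
    { toFun := fun e => QuotientGroup.lift (T.subgroupOf D) (ψ e) (hker e)
      map_one' := by
        ext d
        simp [hψ]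
      map_mul' := by
        intro e e'
        ext d
        change (ψ (e * e') d : R) = ((ψ e d * ψ e' d : U) : R)
        rw [mul_comm (ψ e d), Subgroup.coe_mul, hψ, hψ, hψ]
        exact comm_mul_left (hUE _ (hcom e' e'.2 d d.2) e e.2) }
  have hφ : φ.ker = (Subgroup.centralizer (D : Set R)).subgroupOf E := by
    ext e
    rw [MonoidHom.mem_ker, Subgroup.mem_subgroupOf, Subgroup.mem_centralizer_iff]
    constructor
    · intro h d hd
      have h2 := DFunLike.congr_fun h ((⟨d, hd⟩ : D) : Q)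
      have h3 : (ψ e ⟨d, hd⟩ : R) = 1 := congrArg Subtype.val h2
      rw [hψ] at h3
      rw [mul_inv_eq_one, mul_inv_eq_iff_eq_mul] at h3
      exact h3.symm
    · intro h
      ext d
      change (ψ e d : R) = 1
      rw [hψ, ← h d d.2]
      simp
  have h2 : Nat.card (Q →* U) ≤ Nat.card Q := h1 Q U hU
  have hfin : Finite (Q →* U) := DFunLike.finite (Q →* U)
  calc (Subgroup.centralizer (D : Set R)).relIndex E = φ.ker.index := by
        rw [hφ]
        rfl
    _ = Nat.card φ.range := Subgroup.index_ker φ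
    _ ≤ Nat.card (Q →* U) := Nat.card_le_card_of_injective _ Subtype.val_injective
    _ ≤ Nat.card Q := h2
    _ = T.relIndex D := rfl

end

end Pool.Agent.H73.FI
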