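import Pool.Agent.H73.FI.HMC

/-! Row ISO of fi_modules: isotropic subgroups. -/

set_option autoImplicit false

open FI

namespace Pool.Agent.H73.FI

theorem pf_ISO (h1 : T_HMC) : T_ISO := by
  intro R _ _ U D A hU hQ hAD hAU
  have hUD : ∀ u ∈ U, ∀ d ∈ D, u * d = d * u := fun u hu d hd =>
    (Subgroup.mem_centralizer_iff.1 (hQ.DC hd) u hu)
  have hA : ∀ a ∈ A, ∀ b ∈ A, a * b = b * a := by
    intro a ha b hb
    have h2 : a * b * a⁻¹ * b⁻¹ ∈ A ⊓ U :=
      ⟨A.mul_mem (A.mul_mem (A.mul_mem ha hb) (A.inv_mem ha)) (A.inv_mem hb),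
        hQ.com a (hAD ha) b (hAD hb)⟩
    rw [hAU, Subgroup.mem_bot, mul_inv_eq_one, mul_inv_eq_iff_eq_mul] at h2
    exact h2
  set P : Subgroup R := D ⊓ Subgroup.centralizer (A : Set R) with hP
  have hUP : U ≤ P := by
    intro u hu
    exact ⟨hQ.UD hu, Subgroup.mem_centralizer_iff.2 fun a ha => (hUD u hu a (hAD ha)).symm⟩
  have hAP : A ≤ P := by
    intro a ha
    exact ⟨hAD ha, Subgroup.mem_centralizer_iff.2 fun b hb => hA b hb a ha⟩
  have hPD : P ≤ D := inf_le_left
  have h3 := pair h1 U A D P hU hPD (fun a ha b hb => hUP (hQ.com a ha b hb))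
    (fun u hu e he => hUD u hu e (hAD he)) hUD (fun e he d hd => hQ.com e (hAD he) d hd)
    (fun e he t ht => Subgroup.mem_centralizer_iff.1 ht.2 e he)
  have h4 : (Subgroup.centralizer (D : Set R)).relIndex A = Nat.card A := by
    have h5 : (Subgroup.centralizer (D : Set R)).subgroupOf A = ⊥ := by
      rw [Subgroup.subgroupOf_eq_bot, disjoint_iff, eq_bot_iff, ← hAU]
      intro a ha
      refine ⟨ha.2, hQ.cen a (hAD ha.2) fun b hb => ?_⟩
      exact (Subgroup.mem_centralizer_iff.1 ha.1 b hb).symm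
    rw [Subgroup.relIndex, h5, Subgroup.index_bot]
  have h6 : U.relIndex A = Nat.card A := by
    have h5 : U.subgroupOf A = ⊥ := by
      rw [Subgroup.subgroupOf_eq_bot, disjoint_iff, inf_comm, hAU]
    rw [Subgroup.relIndex, h5, Subgroup.index_bot]
  have h7 : U.relIndex A ≤ U.relIndex P :=
    Subgroup.relIndex_le_of_le_right hAP Subgroup.index_ne_zero_of_finite
  have h8 := Subgroup.relIndex_mul_relIndex U P D hUP hPD
  rw [← h8]
  rw [h4] at h3
  rw [h6] at h7
  exact Nat.mul_le_mul h7 h3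

end Pool.Agent.H73.FI
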