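import Pool.Agent.H6.FI.TargetsB

/-! Row S5V of fi_modules: solvable subgroups of the symmetric group of degree five. -/

set_option autoImplicit false

open FI AMc AMt

namespace Pool.Agent.H73.FI

section

/-- a subgroup of small index -/
theorem idx {G : Type} [Group G] (H : Subgroup G) (hH : Group.IsSolvable H)
    (hP : Group.IsSolvable (Equiv.Perm (G ⧸ H))) : Group.IsSolvable G := by
  have h1 : Group.IsSolvable H.normalCore :=
    Group.isSolvable_of_isSolvable_injective (f := Subgroup.inclusion H.normalCore_le)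
      (Subgroup.inclusion_injective _)
  refine Group.isSolvable_of_ker_le_range (H.normalCore.subtype)
    (MulAction.toPermHom G (G ⧸ H)) ?_
  rw [← Subgroup.normalCore_eq_ker, Subgroup.range_subtype]

theorem pgrp {G : Type} [Group G] [Finite G] (p k : ℕ) (hp : p.Prime) (h : Nat.card G = p ^ k) :
    Group.IsSolvable G := by
  have : Fact p.Prime := ⟨hp⟩
  have h1 : IsPGroup p G := IsPGroup.of_card h
  have h2 : Group.IsNilpotent G := h1.isNilpotent
  infer_instance

theorem perm_eq {α β : Type} (e : α ≃ β) (h : Group.IsSolvable (Equiv.Perm α)) :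
    Group.IsSolvable (Equiv.Perm β) :=
  Group.isSolvable_of_surjective (f := (Equiv.permCongrHom e).toMonoidHom)
    (Equiv.permCongrHom e).surjective

theorem perm_le_two {α : Type} [Finite α] (h : Nat.card α ≤ 2) :
    Group.IsSolvable (Equiv.Perm α) := by
  have h1 : Group.IsSolvable (Equiv.Perm (Fin (Nat.card α))) := by
    have h2 : ∀ n ≤ 2, ∀ a b : Equiv.Perm (Fin n), a * b = b * a := by decide
    exact Group.isSolvable_of_comm (h2 _ h)
  exact perm_eq (Finite.equivFin α).symm h1

theorem syl {G : Type} [Group G] [Finite G] (p k : ℕ) (hp : p.Prime) (m : ℕ)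
    (h : Nat.card G = p ^ k * m)
    (hP : ∀ (α : Type) [Finite α], Nat.card α = m → Group.IsSolvable (Equiv.Perm α)) :
    Group.IsSolvable G := by
  have : Fact p.Prime := ⟨hp⟩
  obtain ⟨H, hH⟩ := Sylow.exists_subgroup_card_pow_prime (G := G) p (n := k)
    ⟨m, h⟩
  have h1 : Group.IsSolvable H := pgrp p k hp hH
  have h2 : Nat.card (G ⧸ H) = m := by
    have h3 := H.card_mul_index
    rw [hH, h] at h3
    exact Nat.eq_of_mul_eq_mul_left (pow_pos hp.pos k) h3
  exact idx H h1 (hP _ h2)

theorem perm_three {α : Type} [Finite α] (h : Nat.card α = 3) :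
    Group.IsSolvable (Equiv.Perm α) := by
  refine syl 3 1 Nat.prime_three 2 ?_ fun β _ hβ => perm_le_two hβ.le
  rw [Nat.card_perm, h]
  rfl

/-- small groups -/
theorem small {G : Type} [Group G] [Finite G] (h : Nat.card G ∣ 60) (h2 : Nat.card G ≤ 12) :
    Group.IsSolvable G := by
  have h0 : 0 < Nat.card G := Nat.card_pos
  obtain ⟨n, hn⟩ : ∃ n, n = Nat.card G := ⟨_, rfl⟩
  rw [← hn] at h h2 h0
  have h3 : n = 1 ∨ n = 2 ∨ n = 3 ∨ n = 4 ∨ n = 5 ∨ n = 6 ∨ n = 10 ∨ n = 12 := by
    have h4 : ∀ n < 13, 0 < n → n ∣ 60 →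
        (n = 1 ∨ n = 2 ∨ n = 3 ∨ n = 4 ∨ n = 5 ∨ n = 6 ∨ n = 10 ∨ n = 12) := by
      intro n h1 h2 h3
      interval_cases n <;> omega
    exact h4 n (by omega) h0 h
  rcases h3 with h3 | h3 | h3 | h3 | h3 | h3 | h3 | h3
  · exact pgrp 2 0 Nat.prime_two (by rw [← hn, h3]; norm_num)
  · exact pgrp 2 1 Nat.prime_two (by rw [← hn, h3]; norm_num)
  · exact pgrp 3 1 Nat.prime_three (by rw [← hn, h3]; norm_num)
  · exact pgrp 2 2 Nat.prime_two (by rw [← hn, h3]; norm_num)
  · exact pgrp 5 1 Nat.prime_five (by rw [← hn, h3]; norm_num)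
  · exact syl 3 1 Nat.prime_three 2 (by rw [← hn, h3]; norm_num)
      fun β _ hβ => perm_le_two hβ.le
  · exact syl 5 1 Nat.prime_five 2 (by rw [← hn, h3]; norm_num)
      fun β _ hβ => perm_le_two hβ.le
  · exact syl 2 2 Nat.prime_two 3 (by rw [← hn, h3]; norm_num)
      fun β _ hβ => perm_three hβ

theorem not_solvable_A5 : ¬ Group.IsSolvable A5 := by
  intro h
  apply Equiv.Perm.not_isSolvable_fin_5
  refine Group.isSolvable_of_ker_le_range A5.subtype Equiv.Perm.sign ?_
  rw [Subgroup.range_subtype]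
  exact le_rfl

theorem card_A5 : Nat.card A5 = 60 := by
  have h := two_mul_nat_card_alternatingGroup (α := Fin 5)
  rw [Nat.card_perm, Nat.card_eq_fintype_card (α := Fin 5), Fintype.card_fin] at h
  have h2 : Nat.factorial 5 = 120 := rfl
  rw [h2] at h
  change 2 * Nat.card A5 = 120 at h
  exact Nat.eq_of_mul_eq_mul_left (by norm_num : 0 < 2) h

/-- proper subgroups of the alternating group -/
theorem proper (H : Subgroup A5) (hH : H ≠ ⊤) : 5 ≤ H.index := by
  by_contra hcon
  push Not at hcon
  have h1 : H.normalCore = ⊥ ∨ H.normalCore = ⊤ := H.normalCore_normal.eq_bot_or_eq_top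
  rcases h1 with h1 | h1
  · have h2 : Function.Injective (MulAction.toPermHom A5 (A5 ⧸ H)) := by
      rw [← MonoidHom.ker_eq_bot_iff, ← Subgroup.normalCore_eq_ker, h1]
    have h3 := Nat.card_le_card_of_injective _ h2
    rw [card_A5, Nat.card_perm] at h3
    have h4 : Nat.card (A5 ⧸ H) ≤ 4 := Nat.lt_succ_iff.1 hcon
    have h5 := Nat.factorial_le h4
    have h6 : Nat.factorial 4 = 24 := rfl
    omega
  · apply hH
    rw [eq_top_iff, ← h1]
    exact H.normalCore_le

theorem pf_S5V : T_S5V := by
  intro T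
  constructor
  · intro hT hA
    apply not_solvable_A5
    exact Group.isSolvable_of_isSolvable_injective (f := Subgroup.inclusion hA)
      (Subgroup.inclusion_injective _)
  · intro hA
    set H : Subgroup A5 := T.subgroupOf A5 with hHdef
    have hH : H ≠ ⊤ := by
      intro h
      apply hA
      rwa [hHdef, Subgroup.subgroupOf_eq_top] at h
    have h5 := proper H hH
    have h6 : Nat.card H * H.index = 60 := by rw [H.card_mul_index, card_A5]
    have h7 : Nat.card H ≤ 12 := by
      by_contra hcon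
      push Not at hcon
      nlinarith
    have h8 : Group.IsSolvable H := small ⟨_, h6.symm⟩ h7
    let φ : T →* ℤˣ := Equiv.Perm.sign.comp T.subtype
    let ι : H →* T := (A5.subtype.comp H.subtype).codRestrict T fun x => x.2
    refine Group.isSolvable_of_ker_le_range ι φ ?_
    intro t ht
    exact ⟨⟨⟨t, ht⟩, t.2⟩, rfl⟩

end

end Pool.Agent.H73.FI
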