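import Pool.Agent.H73.FI.HMC

/-! Row SQR of fi_modules: the order of `D / U` is a square. -/

set_option autoImplicit false

open FI

namespace Pool.Agent.H73.FI

theorem pf_SQR (h1 : T_HMC) : T_SQR := by
  intro R _ _ U D hU hQ
  classical
  have hUD : ∀ u ∈ U, ∀ d ∈ D, u * d = d * u := fun u hu d hd =>
    (Subgroup.mem_centralizer_iff.1 (hQ.DC hd) u hu)
  -- a maximal abelian subgroup
  let P : Subgroup R → Prop := fun M => U ≤ M ∧ M ≤ D ∧ ∀ a ∈ M, ∀ b ∈ M, a * b = b * a
  have hPU : P U := ⟨le_rfl, hQ.UD, fun a ha b hb => hUD a ha b (hQ.UD hb)⟩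
  obtain ⟨M, hM, hmax⟩ : ∃ M, P M ∧ ∀ M', P M' → M ≤ M' → M' = M := by
    have hfin : {M | P M}.Finite := Set.toFinite _
    obtain ⟨M, hM⟩ := hfin.exists_maximal ⟨U, hPU⟩
    exact ⟨M, hM.1, fun M' h h' => le_antisymm (hM.2 h h') h'⟩
  obtain ⟨hUM, hMD, hMab⟩ := hM
  have hself : ∀ y ∈ D, (∀ a ∈ M, a * y = y * a) → y ∈ M := by
    intro y hy hya
    set s : Set R := insert y (M : Set R) with hs
    have hsc : s ⊆ Subgroup.centralizer s := by
      intro a ha
      rw [SetLike.mem_coe, Subgroup.mem_centralizer_iff]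
      intro b hb
      rcases ha with rfl | ha <;> rcases hb with rfl | hb
      · rfl
      · exact hya b hb
      · exact (hya a ha).symm
      · exact hMab b hb a ha
    have h2 : Subgroup.closure s ≤ Subgroup.centralizer s := (Subgroup.closure_le _).2 hsc
    have h3 : ∀ a ∈ Subgroup.closure s, ∀ b ∈ Subgroup.closure s, a * b = b * a := by
      intro a ha b hb
      have h4 := Subgroup.closure_le_centralizer_centralizer s ha
      exact (Subgroup.mem_centralizer_iff.1 h4 b (h2 hb)).symm
    have h5 : P (Subgroup.closure s) := by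
      refine ⟨hUM.trans ?_, ?_, h3⟩
      · intro a ha
        exact Subgroup.subset_closure (Or.inr ha)
      · rw [Subgroup.closure_le]
        intro a ha
        rcases ha with rfl | ha
        · exact hy
        · exact hMD ha
    have h6 := hmax _ h5 (fun a ha => Subgroup.subset_closure (Or.inr ha))
    rw [← h6]
    exact Subgroup.subset_closure (Or.inl rfl)
  have h2 := pair h1 U D M U hU hUM
    (fun a ha b hb => by
      rw [hMab a ha b hb]
      simp)
    hUD (fun u hu d hd => hUD u hu d (hMD hd)) (fun e he d hd => hQ.com e he d (hMD hd))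
    (fun e he t ht => (hUD t ht e he).symm)
  have h3 := pair h1 U M D M hU hMD (fun a ha b hb => hUM (hQ.com a ha b hb))
    (fun u hu e he => hUD u hu e (hMD he)) hUD (fun e he d hd => hQ.com e (hMD he) d hd)
    (fun e he t ht => hMab e he t ht)
  have h4 : (Subgroup.centralizer (M : Set R)).relIndex D = M.relIndex D := by
    rw [← Subgroup.inf_relIndex_right, ← Subgroup.inf_relIndex_right M D]
    congr 1
    ext y
    constructor
    · rintro ⟨ha, hb⟩
      exact ⟨hself y hb fun a h => Subgroup.mem_centralizer_iff.1 ha a h, hb⟩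
    · rintro ⟨ha, hb⟩
      exact ⟨Subgroup.mem_centralizer_iff.2 fun b hb => hMab b hb y ha, hb⟩
  have h5 : (Subgroup.centralizer (D : Set R)).relIndex M = U.relIndex M := by
    rw [← Subgroup.inf_relIndex_right, ← Subgroup.inf_relIndex_right U M]
    congr 1
    ext y
    constructor
    · rintro ⟨ha, hb⟩
      refine ⟨hQ.cen y (hMD hb) fun b hb' => ?_, hb⟩
      exact (Subgroup.mem_centralizer_iff.1 ha b hb').symm
    · rintro ⟨ha, hb⟩
      exact ⟨Subgroup.mem_centralizer_iff.2 fun b hb' => (hUD y ha b hb').symm, hb⟩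
  rw [h4] at h2
  rw [h5] at h3
  have h6 : U.relIndex M = M.relIndex D := le_antisymm h3 h2
  refine ⟨M.relIndex D, Nat.pos_of_ne_zero Subgroup.index_ne_zero_of_finite, ?_⟩
  rw [← Subgroup.relIndex_mul_relIndex U M D hUM hMD, h6]

end Pool.Agent.H73.FI
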