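import Pool.Agent.H73.FI.HMC

/-! Row QD2 of fi_modules: the centraliser of `D / U`. -/

set_option autoImplicit false

open FI

namespace Pool.Agent.H73.FI

theorem pf_QD2 (h1 : T_HMC) : T_QD2 := by
  intro R _ _ U D hU hQ
  have hUab : ∀ a ∈ U, ∀ b ∈ U, a * b = b * a := by
    intro a ha b hb
    let _ : CommGroup U := IsCyclic.commGroup
    exact congrArg Subtype.val (mul_comm (⟨a, ha⟩ : U) ⟨b, hb⟩)
  have hUD : ∀ u ∈ U, ∀ d ∈ D, u * d = d * u := fun u hu d hd =>
    (Subgroup.mem_centralizer_iff.1 (hQ.DC hd) u hu)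
  set C : Subgroup R := Subgroup.centralizer (U : Set R) with hC
  have hUC : ∀ u ∈ U, ∀ c ∈ C, u * c = c * u := fun u hu c hc =>
    Subgroup.mem_centralizer_iff.1 hc u hu
  have hUleC : U ≤ C := fun u hu => by
    rw [hC, Subgroup.mem_centralizer_iff]
    exact fun v hv => hUab v hv u hu
  let E : Subgroup R :=
    { carrier := {c | c ∈ C ∧ ∀ d ∈ D, c * d * c⁻¹ * d⁻¹ ∈ U}
      one_mem' := ⟨C.one_mem, fun d _ => by simp⟩
      mul_mem' := by
        rintro e e' ⟨he, he1⟩ ⟨he', he1'⟩
        refine ⟨C.mul_mem he he', fun d hd => ?_⟩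
        rw [comm_mul_left (hUC _ (he1' d hd) e he)]
        exact U.mul_mem (he1' d hd) (he1 d hd)
      inv_mem' := by
        rintro e ⟨he, he1⟩
        refine ⟨C.inv_mem he, fun d hd => ?_⟩
        rw [comm_inv_left (hUC _ (he1 d hd) e he)]
        exact U.inv_mem (he1 d hd) }
  have hE : ∀ c, c ∈ E ↔ c ∈ C ∧ ∀ d ∈ D, c * d * c⁻¹ * d⁻¹ ∈ U := fun _ => Iff.rfl
  have hDE : D ≤ E := fun d hd => ⟨hQ.DC hd, fun b hb => hQ.com d hd b hb⟩
  have hUE : U ≤ E := hQ.UD.trans hDE
  have h2 := pair h1 U E D U hU hQ.UD hQ.com (fun u hu e he => hUC u hu e he.1) hUD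
    (fun e he d hd => he.2 d hd) (fun e he t ht => (hUC t ht e he.1).symm)
  -- the centraliser of D in C
  have hDn : D.Normal := hQ.nD
  have hUn : U.Normal := hQ.nU
  have hT : Subgroup.centralizer (D : Set R) ⊓ C = U := by
    have hn1 : (Subgroup.centralizer (D : Set R)).Normal := Subgroup.normal_centralizer
    have hn2 : C.Normal := Subgroup.normal_centralizer
    refine hQ.meet _ inferInstance ?_ inf_le_right ?_
    · refine le_inf ?_ hUleC
      intro u hu
      rw [Subgroup.mem_centralizer_iff]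
      intro d hd
      exact (hUD u hu d hd).symm
    · apply le_antisymm
      · rintro y ⟨⟨ha, hb⟩, hc⟩
        refine hQ.cen y hc fun b hb' => ?_
        exact (Subgroup.mem_centralizer_iff.1 ha b hb').symm
      · refine le_inf (le_inf ?_ hUleC) hQ.UD
        intro u hu
        rw [Subgroup.mem_centralizer_iff]
        intro d hd
        exact (hUD u hu d hd).symm
  have h3 : (Subgroup.centralizer (D : Set R)).relIndex E = U.relIndex E := by
    rw [← Subgroup.inf_relIndex_right, ← Subgroup.inf_relIndex_right U E]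
    congr 1
    ext y
    constructor
    · rintro ⟨ha, hb⟩
      have h4 : y ∈ Subgroup.centralizer (D : Set R) ⊓ C := ⟨ha, hb.1⟩
      rw [hT] at h4
      exact ⟨h4, hb⟩
    · rintro ⟨ha, hb⟩
      exact ⟨Subgroup.mem_centralizer_iff.2 fun b hb' => (hUD y ha b hb').symm, hb⟩
  rw [h3, ← Subgroup.relIndex_mul_relIndex U D E hQ.UD hDE] at h2
  have h5 : 0 < U.relIndex D := Nat.pos_of_ne_zero Subgroup.index_ne_zero_of_finite
  have h6 : 0 < D.relIndex E := Nat.pos_of_ne_zero Subgroup.index_ne_zero_of_finite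
  have h7 : D.relIndex E = 1 := by
    have h8 : D.relIndex E ≤ 1 := by
      by_contra hcon
      push Not at hcon
      nlinarith
    omega
  have h8 : E ≤ D := Subgroup.relIndex_eq_one.1 h7
  exact
    { nU := hQ.nU
      nD := hQ.nD
      UD := hQ.UD
      DC := hQ.DC
      com := hQ.com
      cen := hQ.cen
      cDU := fun c hc h => h8 ⟨hc, h⟩
      cr := hQ.cr
      sqf := hQ.sqf }

end Pool.Agent.H73.FI
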